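import Pool.Agent.U987.HS.Surf

/-!
# Surfaces of small mean curvature in hyperbolic four-space are ribbon surfaces

Let `F` be a compact smooth surface of any genus in the closed unit ball of four-space, properly and
transversally embedded (`PSurf`; `F` need not be connected), for instance a surface bounded by a knot
in the 3-sphere. We consider it in the hyperbolic metric `4 |dx|² / (1 - |x|²)²` of the open ball. `H` is
its hyperbolic mean curvature vector (half of the trace of the second fundamental form), `r` the
hyperbolic distance from the origin.

* `excessS F` is the integral over `F` (hyperbolic area) of `exp (3 r) ((|H| - 1)_+)²`;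
* `excessDirS F` is the integral over `F` and over the circles of unit normal vectors `n` of
  `P³ ((H·n - 1)_+)²`, where `P ≤ exp r` is the Poisson kernel of the point `-n` of the sphere.

The number `1` is the mean curvature of horospheres. The following holds:

1. the total horospherical curvature of `F` is at most `excessDirS F`, and
   `excessDirS F ≤ (π / 2) excessS F`;
2. if `excessDirS F < 2 π² (m + 1)` or `excessS F < 4 π (m + 1)`, then a diffeomorphism of the ball
   minus a boundary point, which is the identity on the sphere, turns `F` into a surface with the same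
   boundary (diffeomorphic to `F`, so of the same genus) on which the distance from the origin is a
   Morse function with at most `m` local maxima in the interior; for `m = 0` this is a ribbon surface;
3. in particular a surface with `|H| ≤ 1` everywhere is turned into a ribbon surface.

So a knot which bounds a surface of genus `g` with `|H| ≤ 1`, or only with `excessS F < 4 π`, has
ribbon genus at most `g`.

The theorem on the total horospherical curvature is the theorem `surfaces` of the starting library
(`Pool.Agent.Y503.RB`); the pointwise comparison of the horospherical curvature with the hyperbolic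
mean curvature is by helper1 (`Pool.Agent.U1.HM`), who treats discs.
-/

set_option autoImplicit false

namespace Pool.Agent.Results.MP_177a0e_gt.HyperbolicMeanCurvature

open scoped ENNReal ContDiff
open Pool.Agent.Y503.RB Pool.Agent.U1.HM Pool.Agent.U987.HS
open MeasureTheory Metric

theorem result (F : Set E4) (h : PSurf F) :
    -- (1) comparison of the curvatures
    (totalCurv F ≤ excessDirS F ∧ excessDirS F ≤ ENNReal.ofReal (Real.pi / 2) * excessS F) ∧
    -- (2) the number of local maxima
    (∀ m : ℕ, (excessDirS F < ENNReal.ofReal (2 * Real.pi ^ 2 * (m + 1)) ∨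
        excessS F < ENNReal.ofReal (4 * Real.pi * (m + 1))) →
      ∃ ξ : E4, ‖ξ‖ = 1 ∧ ξ ∉ F ∧
        (∀ x ∈ F, ContDiffAt ℝ ∞ (push ξ) x ∧ ContDiffAt ℝ ∞ (pull ξ) (push ξ x) ∧
          pull ξ (push ξ x) = x) ∧
        (∀ x ∈ F, ‖x‖ = 1 → push ξ x = x) ∧
        PSurf (push ξ '' F) ∧ push ξ '' F ∩ sphere 0 1 = F ∩ sphere 0 1 ∧
        MorseSurf (push ξ '' F) m) ∧
    -- (3) mean curvature at most one
    (MeanLeOne F →
      ∃ ξ : E4, ‖ξ‖ = 1 ∧ ξ ∉ F ∧
        (∀ x ∈ F, ContDiffAt ℝ ∞ (push ξ) x ∧ ContDiffAt ℝ ∞ (pull ξ) (push ξ x) ∧
          pull ξ (push ξ x) = x) ∧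
        (∀ x ∈ F, ‖x‖ = 1 → push ξ x = x) ∧
        PSurf (push ξ '' F) ∧ push ξ '' F ∩ sphere 0 1 = F ∩ sphere 0 1 ∧
        MorseSurf (push ξ '' F) 0) := by
  refine ⟨⟨total_le F, dirS_le F⟩, fun m hm => surfaces F h m (lt_of_excess hm), fun hH => ?_⟩
  refine surfaces F h 0 (lt_of_excess (Or.inr ?_))
  rw [excessS_zero h hH]
  have hpi := Real.pi_pos
  exact ENNReal.ofReal_pos.2 (by positivity)

end Pool.Agent.Results.MP_177a0e_gt.HyperbolicMeanCurvature
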