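import Pool.Agent.U548.CC.Cells

/-!
# Ribbon genus and slice genus: surfaces which are little curved in each cell

The starting result `MilnorTheoremForSurfaces` says that a surface of lower total curvature less than
`π² (m + 1)` can be replaced by one of the same type with at most `m` local minima of the height. Here
the surface is cut into cells by horizontal levels and, between two levels, by vertical walls, and
only the curvature in the single cells has to be small; the total curvature may be arbitrarily large.

The surfaces `F` are compact and smoothly embedded in the half-space `x₃ ≥ 0` of Euclidean four-space,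
with boundary `K` in the hyperplane `x₃ = 0` and vertical near the boundary; `HCls S K F` says this,
and that `F` is homeomorphic to `S`. A surface is a ribbon surface if the height `x₃` is a Morse
function on it (`MorseS`) without local minimum in the interior (in the 4-ball: the distance from the
centre has no local maximum); `nminS` is the number of local minima.

* `Levels F n t`: the levels `0 = t 0 < t 1 < … < t (n + 1)` are such that `F` is below the last one
  and vertical near `t 1, …, t n`.
* `Cells F a b r B`: the sets `B 0, …, B (r - 1)` are open, invariant under vertical translations and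
  disjoint, and cover the part of `F` between the levels `a` and `b`.
* `lowP (F ∩ B j) a b`, the lower total curvature of the part of `F` in `B j` between the levels `a`
  and `b`, is the integral, over this part and over the unit normal vectors `n` with `n₃ > 0`, of the
  determinant of the second fundamental form `II_n`, taken where `II_n` is positive definite.

1. If the lower total curvature of `F` in the `j`-th cell between the levels `t i` and `t (i + 1)` is
   less than `π² (m i j + 1)` for all `i`, `j`, then `K` bounds a surface of the same type with a Morse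
   height with at most `∑ m i j` local minima.
2. For every topological type and every `M` this characterises the links `K` which bound a surface of
   this type with a Morse height with at most `M` local minima.
3. Let `S g` be the type of the surfaces of genus `g`, and let `g` be the slice genus of `K`. The
   ribbon genus of `K` is equal to its slice genus `g` if and only if `K` bounds a surface of genus
   `g` which can be cut into cells of lower total curvature less than `π²`.

Proof. The library (`Pool.Agent.N15.SF`, helper15 and others) treats one slab, by a vertical shear in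
one direction for the whole surface. New: different directions in the different cells. The shears are
vertical, so that the pieces in different cells stay disjoint; after vertical stretchings they have the
same height, and their union is a surface in a slab; the surfaces in the slabs are glued along
vertical collars (`Pool.Agent.U548.CC`).
-/

set_option autoImplicit false

namespace Pool.Agent.Results.MP_177a0e_gt.SmallCurvatureInCells

open scoped ENNReal NNReal
open Pool.Agent.N15.SF Pool.Agent.Y503.RB Pool.Agent.U548.CC
open MeasureTheory Metric Set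

/-- `F` is cut by the levels `t` and by the walls `B` into cells with lower total curvature less than
`π² (m i j + 1)`. -/
def SmallCells (F : Set E4) (n : ℕ) (t : ℕ → ℝ) (r : ℕ → ℕ) (B : ℕ → ℕ → Set E4)
    (m : ℕ → ℕ → ℕ) : Prop :=
  Levels F n t ∧ (∀ i ≤ n, Cells F (t i) (t (i + 1)) (r i) (B i)) ∧
    ∀ i ≤ n, ∀ j < r i,
      lowP (F ∩ B i j) (t i) (t (i + 1)) < ENNReal.ofReal (Real.pi ^ 2 * (m i j + 1))

theorem one_cell (S : Type) [TopologicalSpace S] (K : Set E4) (M : ℕ)
    (h : ∃ F, HCls S K F ∧ MorseS F ∧ nminS F ≤ M) :
    ∃ F t, HCls S K F ∧ SmallCells F 0 t (fun _ => 1) (fun _ _ => univ) (fun _ _ => M) := by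
  obtain ⟨F', h5, h6⟩ := ((half_tfae S K M).out 0 1).1 h
  obtain ⟨t', ht'⟩ := exists_level h5.1
  refine ⟨F', t', h5, ht', fun i hi => ⟨fun j _ => ⟨isOpen_univ, fun _ _ _ => mem_univ _⟩,
    fun i hi j hj hij => absurd ((Nat.lt_one_iff.1 hi).trans (Nat.lt_one_iff.1 hj).symm) hij, fun x _ _ _ => ⟨0, one_pos, mem_univ _⟩⟩,
    fun i hi j hj => ?_⟩
  have h0 : i = 0 := by omega
  subst h0
  rw [inter_univ, lowP_one ht']
  exact h6

theorem result (S : ℕ → Type) [∀ g, TopologicalSpace (S g)] (K : Set E4) :
    -- (1) the local theorem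
    (∀ (g : ℕ) (F : Set E4) (n : ℕ) (t : ℕ → ℝ) (r : ℕ → ℕ) (B : ℕ → ℕ → Set E4) (m : ℕ → ℕ → ℕ),
      HCls (S g) K F → SmallCells F n t r B m →
      ∃ F', HCls (S g) K F' ∧ MorseS F' ∧
        nminS F' ≤ ((∑ i ∈ Finset.range (n + 1), ∑ j ∈ Finset.range (r i), m i j : ℕ) : ℕ∞)) ∧
    -- (2) the characterisation
    (∀ g M : ℕ, (∃ F, HCls (S g) K F ∧ MorseS F ∧ nminS F ≤ M) ↔
      ∃ (F : Set E4) (n : ℕ) (t : ℕ → ℝ) (r : ℕ → ℕ) (B : ℕ → ℕ → Set E4) (m : ℕ → ℕ → ℕ),
        HCls (S g) K F ∧ SmallCells F n t r B m ∧
        ∑ i ∈ Finset.range (n + 1), ∑ j ∈ Finset.range (r i), m i j ≤ M) ∧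
    -- (3) the ribbon genus is equal to the slice genus
    (∀ g : ℕ, IsLeast {g | ∃ F, HCls (S g) K F} g →
      (IsLeast {g | ∃ F, HCls (S g) K F ∧ MorseS F ∧ nminS F = 0} g ↔
        ∃ (F : Set E4) (n : ℕ) (t : ℕ → ℝ) (r : ℕ → ℕ) (B : ℕ → ℕ → Set E4),
          HCls (S g) K F ∧ SmallCells F n t r B (fun _ _ => 0))) := by
  have h1 : ∀ (g : ℕ) (F : Set E4) (n : ℕ) (t : ℕ → ℝ) (r : ℕ → ℕ) (B : ℕ → ℕ → Set E4)
      (m : ℕ → ℕ → ℕ), HCls (S g) K F → SmallCells F n t r B m →
      ∃ F', HCls (S g) K F' ∧ MorseS F' ∧
        nminS F' ≤ ((∑ i ∈ Finset.range (n + 1), ∑ j ∈ Finset.range (r i), m i j : ℕ) : ℕ∞) :=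
    fun g F n t r B m hF h => half_cells (S g) K F n t r B m hF h.1 h.2.1 h.2.2
  refine ⟨h1, fun g M => ⟨fun h => ?_, ?_⟩, fun g hg => ⟨fun h => ?_, ?_⟩⟩
  · obtain ⟨F, t, a1, a2⟩ := one_cell (S g) K M h
    exact ⟨F, 0, t, _, _, _, a1, a2, by simp⟩
  · rintro ⟨F, n, t, r, B, m, a1, a2, a3⟩
    obtain ⟨F', b1, b2, b3⟩ := h1 g F n t r B m a1 a2
    exact ⟨F', b1, b2, b3.trans (by exact_mod_cast a3)⟩
  · obtain ⟨F, b1, b2, b3⟩ := h.1
    obtain ⟨F', t, a1, a2⟩ := one_cell (S g) K 0 ⟨F, b1, b2, b3.le⟩
    exact ⟨F', 0, t, _, _, a1, a2⟩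
  · rintro ⟨F, n, t, r, B, a1, a2⟩
    obtain ⟨F', b1, b2, b3⟩ := h1 g F n t r B _ a1 a2
    refine ⟨⟨F', b1, b2, nonpos_iff_eq_zero.1 (by simpa using b3)⟩, fun g' hg' => ?_⟩
    obtain ⟨F'', hF'', -⟩ := hg'
    exact hg.2 ⟨F'', hF''⟩

end Pool.Agent.Results.MP_177a0e_gt.SmallCurvatureInCells
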